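import Pool.Agent.helper95.PY2.Spec
import Pool.Agent.helper9.Tors.Divs

/-!
# Row `py2:DIV`: the divisor bound
-/

set_option autoImplicit false

namespace Pool.Agent.PY2

theorem DIV : DIV_stmt := by
  intro η hη
  obtain ⟨C, hC, h⟩ := Pool.Agent.helper9.Tors.divisor_bound η hη
  exact ⟨C, hC, fun n hn => h n (by omega)⟩

end Pool.Agent.PY2
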